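import Pool.Agent.E8helper29.Zn.Stm3

set_option autoImplicit false

namespace Pool.Agent.E8helper38.ZU

open MeasureTheory ProbabilityTheory Pool.Agent.Helper649.Zono Pool.Agent.E8helper29.Zn
open scoped RealInnerProductSpace Nat NNReal Polynomial

lemma orth (d : ℕ) : ∀ p : ℝ[X], p.natDegree < d →
    ∫ x, He d x * p.eval x ∂(gaussianReal 0 1) = 0 := by
  induction d with
  | zero => intro p hp; exact absurd hp (Nat.not_lt_zero _)
  | succ d ih =>
    intro p hp
    rw [He_ibp]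
    rcases Nat.eq_zero_or_pos p.natDegree with h0 | h0
    · rw [Polynomial.eq_C_of_natDegree_eq_zero h0]
      simp
    · refine ih _ ?_
      have := Polynomial.natDegree_derivative_lt h0.ne'
      omega

lemma HP_natDegree (d : ℕ) : (HP d).natDegree = d := by
  unfold HP
  rw [Polynomial.natDegree_map_eq_of_injective (Int.cast_injective), Polynomial.natDegree_hermite]

lemma orth_ne (d e : ℕ) (h : d ≠ e) : ∫ x, He d x * He e x ∂(gaussianReal 0 1) = 0 := by
  rcases lt_or_gt_of_ne h with h1 | h1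
  · have h2 : ∫ x, He e x * He d x ∂(gaussianReal 0 1) = 0 :=
      orth e (HP d) (by rw [HP_natDegree]; exact h1)
    refine Eq.trans ?_ h2
    simp_rw [mul_comm (He d _) (He e _)]
  · exact orth d (HP e) (by rw [HP_natDegree]; exact h1)

lemma He_cont (d : ℕ) : Continuous (He d) := (HP d).continuous

section
variable {n N : ℕ} (u : Fin N → E n) (r : Fin N → ℝ)

/-- the `k`-th chaos component -/
noncomputable def P (k : ℕ) (X : E n) : ℝ := ∑ j, r j * He (2 * k) ⟪u j, X⟫

lemma P_cont (k : ℕ) : Continuous (P u r k) := by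
  unfold P
  refine continuous_finsetSum _ fun j _ => ?_
  exact continuous_const.mul ((He_cont _).comp (by fun_prop))

lemma P_memLp (k : ℕ) : MemLp (P u r k) 2 (stdGaussian (E n)) := by
  have h : MemLp (fun X : E n => ∑ j, r j * He (2 * k) ⟪u j, X⟫) 2 (stdGaussian (E n)) :=
    memLp_finsetSum _ (fun j _ => (memLp_He833 (2 * k) (u j)).const_mul (r j))
  exact h

variable (hu : ∀ j, ‖u j‖ = 1)
include hu

lemma P_P (k l : ℕ) : ∫ X, P u r k X * P u r l X ∂(stdGaussian (E n)) =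
    if k = l then ((2 * k)! : ℝ) * ∑ i, ∑ j, r i * r j * ⟪u i, u j⟫ ^ (2 * k) else 0 := by
  have e1 : ∀ X, P u r k X * P u r l X = ∑ i, ∑ j, (r i * r j) *
      (He (2 * k) ⟪u i, X⟫ * He (2 * l) ⟪u j, X⟫) := by
    intro X
    unfold P
    rw [Finset.sum_mul]
    refine Finset.sum_congr rfl fun i _ => ?_
    rw [Finset.mul_sum]
    refine Finset.sum_congr rfl fun j _ => ?_
    ring
  have hint : ∀ i j, Integrable (fun X : E n => (r i * r j) *
      (He (2 * k) ⟪u i, X⟫ * He (2 * l) ⟪u j, X⟫)) (stdGaussian (E n)) := fun i j =>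
    ((memLp_He833 (2 * k) (u i)).integrable_mul (memLp_He833 (2 * l) (u j))).const_mul _
  have e2 : ∀ i j, ∫ X, He (2 * k) ⟪u i, X⟫ * He (2 * l) ⟪u j, X⟫ ∂(stdGaussian (E n)) =
      ⟪u i, u j⟫ ^ (2 * l) * ∫ a, He (2 * k) a * He (2 * l) a ∂(gaussianReal 0 1) := fun i j =>
    mehler (He (2 * k)) (He_cont _).measurable (memLp_He_real833 _) (2 * l) (u i) (u j) (hu i) (hu j)
  simp_rw [e1]
  rw [integral_finsetSum _ (fun i _ => integrable_finsetSum _ fun j _ => hint i j)]
  have e3 : ∀ i, ∫ X, ∑ j, (r i * r j) * (He (2 * k) ⟪u i, X⟫ * He (2 * l) ⟪u j, X⟫)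
      ∂(stdGaussian (E n)) = ∑ j, (r i * r j) * (⟪u i, u j⟫ ^ (2 * l) *
        ∫ a, He (2 * k) a * He (2 * l) a ∂(gaussianReal 0 1)) := by
    intro i
    rw [integral_finsetSum _ (fun j _ => hint i j)]
    refine Finset.sum_congr rfl fun j _ => ?_
    rw [integral_const_mul, e2]
  rw [Finset.sum_congr rfl fun i _ => e3 i]
  split_ifs with h
  · subst h
    rw [He_sq, Finset.mul_sum]
    refine Finset.sum_congr rfl fun i _ => ?_
    rw [Finset.mul_sum]
    refine Finset.sum_congr rfl fun j _ => ?_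
    ring
  · rw [orth_ne (2 * k) (2 * l) (by omega)]
    simp

lemma abs_P (k : ℕ) (w : E n) (hw : ‖w‖ = 1) :
    ∫ X, |(⟪w, X⟫ : ℝ)| * P u r k X ∂(stdGaussian (E n)) =
      alc k * ∑ j, r j * ⟪w, u j⟫ ^ (2 * k) := by
  have e1 : ∀ X : E n, |(⟪w, X⟫ : ℝ)| * P u r k X = ∑ j, r j *
      (|(⟪w, X⟫ : ℝ)| * He (2 * k) ⟪u j, X⟫) := by
    intro X
    unfold P
    rw [Finset.mul_sum]
    refine Finset.sum_congr rfl fun j _ => ?_
    ring
  have hint : ∀ j, Integrable (fun X : E n => r j *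
      (|(⟪w, X⟫ : ℝ)| * He (2 * k) ⟪u j, X⟫)) (stdGaussian (E n)) := fun j =>
    ((memLp_abs833 w).integrable_mul (memLp_He833 (2 * k) (u j))).const_mul _
  simp_rw [e1]
  rw [integral_finsetSum _ (fun j _ => hint j), Finset.mul_sum]
  refine Finset.sum_congr rfl fun j _ => ?_
  have h := mehler (fun x : ℝ => |x|) (by fun_prop) memLp_abs_real833 (2 * k) w (u j) hw (hu j)
  rw [integral_const_mul]
  rw [show ∫ X, |(⟪w, X⟫ : ℝ)| * He (2 * k) ⟪u j, X⟫ ∂(stdGaussian (E n)) =
    ⟪w, u j⟫ ^ (2 * k) * alc k from h]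
  ring

end

theorem l2 : StmL2 := by
  intro n N ε u r μ₀ hu hε hap hfin hμ hnorm I A B hA hB
  have := hfin
  set μ := stdGaussian (E n) with hμd
  set b : ℕ → ℝ := fun k => alc k / ((2 * k)! : ℕ) with hb
  set T : E n → ℝ := fun X => ∑ k ∈ I, b k * P u r k X with hT
  have hTc : Continuous T := by
    rw [hT]
    exact continuous_finsetSum _ fun k _ => continuous_const.mul (P_cont u r k)
  have hT2 : MemLp T 2 μ := memLp_finsetSum _ (fun k _ => (P_memLp u r k).const_mul (b k))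
  -- the second moment
  have h1 : ∫ X, T X ^ 2 ∂μ = A := by
    have e1 : ∀ X, T X ^ 2 = ∑ k ∈ I, ∑ l ∈ I, (b k * b l) * (P u r k X * P u r l X) := by
      intro X
      rw [hT, sq, Finset.sum_mul]
      refine Finset.sum_congr rfl fun k _ => ?_
      rw [Finset.mul_sum]
      refine Finset.sum_congr rfl fun l _ => ?_
      ring
    have hint : ∀ k l, Integrable (fun X => (b k * b l) * (P u r k X * P u r l X)) μ := fun k l =>
      ((P_memLp u r k).integrable_mul (P_memLp u r l)).const_mul _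
    simp_rw [e1]
    rw [integral_finsetSum _ (fun i _ => integrable_finsetSum _ fun j _ => hint i j), hA]
    refine Finset.sum_congr rfl fun k hk => ?_
    rw [integral_finsetSum _ (fun j _ => hint k j)]
    simp_rw [integral_const_mul, hμd, P_P u r hu]
    rw [Finset.sum_eq_single k]
    · rw [if_pos rfl, hb]
      have : (((2 * k)! : ℕ) : ℝ) ≠ 0 := by exact_mod_cast Nat.factorial_ne_zero _
      field_simp
    · intro l _ hl
      rw [if_neg (Ne.symm hl), mul_zero]
    · intro h; exact absurd hk h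
  -- the pairing with `|⟨w, X⟩|`
  have h2 : ∀ w : E n, ‖w‖ = 1 → ∫ X, |(⟪w, X⟫ : ℝ)| * T X ∂μ =
      ∑ k ∈ I, (alc k ^ 2 / ((2 * k)! : ℕ)) * ∑ j, r j * ⟪w, u j⟫ ^ (2 * k) := by
    intro w hw
    have e1 : ∀ X, |(⟪w, X⟫ : ℝ)| * T X = ∑ k ∈ I, b k * (|(⟪w, X⟫ : ℝ)| * P u r k X) := by
      intro X
      rw [hT, Finset.mul_sum]
      refine Finset.sum_congr rfl fun k _ => ?_
      ring
    have hint : ∀ k, Integrable (fun X : E n => b k * (|(⟪w, X⟫ : ℝ)| * P u r k X)) μ := fun k =>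
      ((memLp_abs833 w).integrable_mul (P_memLp u r k)).const_mul _
    simp_rw [e1]
    rw [integral_finsetSum _ (fun k _ => hint k)]
    refine Finset.sum_congr rfl fun k _ => ?_
    rw [integral_const_mul, hμd, abs_P u r hu k w hw, hb]
    ring
  -- the pairing with the sum
  obtain ⟨S, hS⟩ : ∃ S : E n → ℝ, S = fun X => ∑ i, r i * |(⟪u i, X⟫ : ℝ)| := ⟨_, rfl⟩
  have hS2 : MemLp S 2 μ := by
    rw [hS]
    exact memLp_finsetSum _ (fun j _ => (memLp_abs833 (u j)).const_mul (r j))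
  have h3 : ∫ X, T X * S X ∂μ = A := by
    have e1 : ∀ X, T X * S X = ∑ i, r i * (|(⟪u i, X⟫ : ℝ)| * T X) := by
      intro X
      rw [hS, Finset.mul_sum]
      refine Finset.sum_congr rfl fun k _ => ?_
      ring
    have hint : ∀ i, Integrable (fun X : E n => r i * (|(⟪u i, X⟫ : ℝ)| * T X)) μ := fun i =>
      ((memLp_abs833 (u i)).integrable_mul hT2).const_mul _
    simp_rw [e1]
    rw [integral_finsetSum _ (fun i _ => hint i), hA]
    simp_rw [integral_const_mul]
    rw [Finset.sum_congr rfl fun i _ => by rw [h2 (u i) (hu i)]]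
    simp_rw [Finset.mul_sum]
    rw [Finset.sum_comm]
    refine Finset.sum_congr rfl fun k _ => ?_
    refine Finset.sum_congr rfl fun i _ => ?_
    refine Finset.sum_congr rfl fun j _ => ?_
    ring
  -- the pairing with the norm
  have hprod : Integrable (fun p : E n × E n => T p.1 * |(⟪p.1, p.2⟫ : ℝ)|) (μ.prod μ₀) := by
    have i1 : Integrable (fun X => T X * ‖X‖) μ := hT2.integrable_mul memLp_norm833
    have i2 : Integrable (fun p : E n × E n => (T p.1 * ‖p.1‖) * (1 : ℝ)) (μ.prod μ₀) :=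
      i1.mul_prod (integrable_const 1)
    have i3 : ∀ᵐ p ∂(μ.prod μ₀), ‖p.2‖ = 1 := Measure.quasiMeasurePreserving_snd.ae hμ
    have hc : Continuous (fun p : E n × E n => T p.1 * |(⟪p.1, p.2⟫ : ℝ)|) :=
      (hTc.comp continuous_fst).mul (continuous_fst.inner continuous_snd).abs
    refine i2.mono hc.aestronglyMeasurable ?_
    filter_upwards [i3] with p hp
    rw [mul_one, norm_mul, norm_mul, norm_norm]
    refine mul_le_mul_of_nonneg_left ?_ (norm_nonneg _)
    rw [Real.norm_eq_abs, abs_abs]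
    have := abs_real_inner_le_norm p.1 p.2
    rwa [hp, mul_one] at this
  have hpow : ∀ k j, Integrable (fun z : E n => (⟪u j, z⟫ : ℝ) ^ (2 * k)) μ₀ := by
    intro k j
    have hc : Continuous (fun z : E n => (⟪u j, z⟫ : ℝ) ^ (2 * k)) := by fun_prop
    refine Integrable.of_bound hc.aestronglyMeasurable 1 ?_
    filter_upwards [hμ] with z hz
    rw [norm_pow]
    refine pow_le_one₀ (norm_nonneg _) ?_
    have := norm_inner_le_norm (𝕜 := ℝ) (u j) z
    rwa [hu, hz, mul_one] at this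
  have h4 : ∫ X, T X * ‖X‖ ∂μ = B := by
    have e1 : ∀ X, T X * ‖X‖ = ∫ z, T X * |(⟪X, z⟫ : ℝ)| ∂μ₀ := by
      intro X
      rw [integral_const_mul, hnorm X]
    simp_rw [e1]
    rw [integral_integral_swap hprod]
    have e2 : ∀ᵐ z ∂μ₀, ∫ X, T X * |(⟪X, z⟫ : ℝ)| ∂μ =
        ∑ k ∈ I, (alc k ^ 2 / ((2 * k)! : ℕ)) * ∑ j, r j * ⟪u j, z⟫ ^ (2 * k) := by
      filter_upwards [hμ] with z hz
      have e3 : ∀ X, T X * |(⟪X, z⟫ : ℝ)| = |(⟪z, X⟫ : ℝ)| * T X := by
        intro X
        rw [real_inner_comm, mul_comm]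
      simp_rw [e3]
      rw [h2 z hz]
      simp_rw [real_inner_comm]
    rw [integral_congr_ae e2, hB]
    rw [integral_finsetSum _ (fun k _ =>
      (integrable_finsetSum _ fun j _ => (hpow k j).const_mul _).const_mul _)]
    refine Finset.sum_congr rfl fun k _ => ?_
    rw [integral_const_mul, integral_finsetSum _ (fun j _ => (hpow k j).const_mul _)]
    congr 1
    refine Finset.sum_congr rfl fun j _ => ?_
    rw [integral_const_mul]
  -- the conclusion
  have hTa : MemLp (fun X => |T X|) 2 μ := hT2.abs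
  have i1 : Integrable (fun X => T X * S X) μ := hT2.integrable_mul hS2
  have i2 : Integrable (fun X => T X * ‖X‖) μ := hT2.integrable_mul memLp_norm833
  have i3 : Integrable (fun X => |T X| * ‖X‖) μ := hTa.integrable_mul memLp_norm833
  have h5 : A - B = ∫ X, T X * (S X - ‖X‖) ∂μ := by
    have : ∫ X, T X * (S X - ‖X‖) ∂μ = ∫ X, T X * S X ∂μ - ∫ X, T X * ‖X‖ ∂μ := by
      rw [← integral_sub i1 i2]
      congr 1; ext g; ring
    rw [this, h3, h4]
  have h6 : |A - B| ≤ ε * ∫ X, |T X| * ‖X‖ ∂μ := by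
    rw [h5]
    calc |∫ X, T X * (S X - ‖X‖) ∂μ| ≤ ∫ X, |T X * (S X - ‖X‖)| ∂μ := abs_integral_le_integral_abs
      _ ≤ ∫ X, ε * (|T X| * ‖X‖) ∂μ := by
          refine integral_mono_of_nonneg (Filter.Eventually.of_forall fun g => abs_nonneg _)
            (i3.const_mul ε) (Filter.Eventually.of_forall fun g => ?_)
          show |T g * (S g - ‖g‖)| ≤ ε * (|T g| * ‖g‖)
          rw [abs_mul]
          have h := hap g
          have hSg : S g = ∑ j, r j * |(⟪g, u j⟫ : ℝ)| := by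
            rw [hS]
            simp_rw [real_inner_comm]
          rw [← hSg] at h
          calc |T g| * |S g - ‖g‖| ≤ |T g| * (ε * ‖g‖) :=
                mul_le_mul_of_nonneg_left h (abs_nonneg _)
            _ = ε * (|T g| * ‖g‖) := by ring
      _ = ε * ∫ X, |T X| * ‖X‖ ∂μ := integral_const_mul _ _
  have h7 := cs833 μ (fun X => |T X|) (fun X => ‖X‖) hTa memLp_norm833
  have h8 : ∫ X, |T X| ^ 2 ∂μ = A := by
    rw [← h1]
    congr 1; ext g; exact sq_abs _
  rw [h8, norm_sq_int] at h7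
  have hA0 : 0 ≤ A := by rw [← h1]; exact integral_nonneg fun _ => sq_nonneg _
  have h9 : |A - B| ≤ ε * (Real.sqrt A * Real.sqrt n) :=
    h6.trans (mul_le_mul_of_nonneg_left h7 hε)
  calc (A - B) ^ 2 = |A - B| ^ 2 := (sq_abs _).symm
    _ ≤ (ε * (Real.sqrt A * Real.sqrt n)) ^ 2 := pow_le_pow_left₀ (abs_nonneg _) h9 2
    _ = n * ε ^ 2 * A := by
        rw [mul_pow, mul_pow, Real.sq_sqrt hA0, Real.sq_sqrt (Nat.cast_nonneg n)]
        ring

end Pool.Agent.E8helper38.ZU
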